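import Pool.Agent.Work.MP_228e0c_al.Mono

set_option autoImplicit false

namespace Pool.Agent.Results.MP_228e0c_al.MonomialBasis

/-- Over every infinite field `K` there is a finite set `S` of noncommutative polynomials such
that the identities of `M₂(K)` are exactly the elements of the two-sided ideal generated by the
polynomials `s (w₀, w₁, …)`, where `s ∈ S` and the `wᵢ` are nonempty words in the variables. -/
theorem result (K : Type) [Field K] [Infinite K] :
    ∃ S : Finset (FreeAlgebra K ℕ), ∀ f : FreeAlgebra K ℕ,
      (∀ v : ℕ → Matrix (Fin 2) (Fin 2) K, FreeAlgebra.lift K v f = 0) ↔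
        f ∈ TwoSidedIdeal.span {g | ∃ s ∈ S, ∃ w : ℕ → List ℕ, (∀ i, w i ≠ []) ∧
          g = FreeAlgebra.lift K (fun i => ((w i).map (FreeAlgebra.ι K)).prod) s} :=
  Pool.Agent.Work.MP_228e0c_al.Mono.monomial_basis

end Pool.Agent.Results.MP_228e0c_al.MonomialBasis
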